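import Pool.Agent.MWI.StmtsE

/-!
# Row CVF of squad MWI: the coverings
-/

set_option autoImplicit false

namespace Pool.Agent.MWI.H45

open Pool.Agent.MWI

theorem cvf : CvfStmt := by
  refine ⟨?_, ?_, ?_, ?_, ?_⟩
  · decide
  · decide
  · decide
  · have h : ∀ e : Bool, ∀ j < 3, rl e j < 3 ∧ ∀ j' < 3, rl e j = rl e j' → j = j' := by decide
    intro e j hj
    refine ⟨(h e j hj).1, fun j' hj' => ?_⟩
    exact (h e j hj).2 j' hj'
  · decide

end Pool.Agent.MWI.H45
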